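import Mathlib
import Pool.Agent.helper81.PJ.Spec

set_option autoImplicit false

open Finset

namespace Pool.Agent.PJ

open Pool.Agent.PY2

theorem SSQ_expand (p : ℕ) [Fact p.Prime] (χ : MulChar (ZMod p) ℂ) (N : ℕ)
    (B : Finset (ZMod p)) (β : ZMod p → ℂ) :
    ((∑ n ∈ range N, ‖∑ b ∈ B, β b * χ ((n : ZMod p) + b)‖ ^ 2 : ℝ) : ℂ) =
      ∑ z ∈ B ×ˢ B, β z.1 * (starRingEnd ℂ) (β z.2) * Gc χ N z.1 z.2 := by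
  have h1 : ∀ n : ℕ, ((‖∑ b ∈ B, β b * χ ((n : ZMod p) + b)‖ ^ 2 : ℝ) : ℂ) =
      ∑ z ∈ B ×ˢ B, β z.1 * (starRingEnd ℂ) (β z.2) *
        (χ ((n : ZMod p) + z.1) * (starRingEnd ℂ) (χ ((n : ZMod p) + z.2))) := by
    intro n
    rw [Complex.ofReal_pow, ← Complex.mul_conj', map_sum, Finset.sum_mul_sum, Finset.sum_product]
    refine Finset.sum_congr rfl fun b _ => Finset.sum_congr rfl fun b' _ => ?_
    rw [map_mul]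
    ring
  rw [Complex.ofReal_sum, Finset.sum_congr rfl (fun n _ => h1 n), Finset.sum_comm]
  refine Finset.sum_congr rfl fun z _ => ?_
  unfold Gc
  rw [Finset.mul_sum]

theorem SSQ : SSQ_stmt := by
  intro p _ χ N A B β hA hβ
  have h1 : (∑ n ∈ A, ‖∑ b ∈ B, β b * χ ((n : ZMod p) + b)‖) ^ 2 ≤
      (A.card : ℝ) * ∑ n ∈ A, ‖∑ b ∈ B, β b * χ ((n : ZMod p) + b)‖ ^ 2 := sq_sum_le_card_mul_sum_sq
  have h2 : ∑ n ∈ A, ‖∑ b ∈ B, β b * χ ((n : ZMod p) + b)‖ ^ 2 ≤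
      ∑ n ∈ range N, ‖∑ b ∈ B, β b * χ ((n : ZMod p) + b)‖ ^ 2 :=
    Finset.sum_le_sum_of_subset_of_nonneg hA fun _ _ _ => by positivity
  have h3 : ∑ n ∈ range N, ‖∑ b ∈ B, β b * χ ((n : ZMod p) + b)‖ ^ 2 ≤
      ∑ z ∈ B ×ˢ B, ‖Gc χ N z.1 z.2‖ := by
    have h4 := SSQ_expand p χ N B β
    have h5 : (∑ n ∈ range N, ‖∑ b ∈ B, β b * χ ((n : ZMod p) + b)‖ ^ 2 : ℝ) =
        ‖((∑ n ∈ range N, ‖∑ b ∈ B, β b * χ ((n : ZMod p) + b)‖ ^ 2 : ℝ) : ℂ)‖ := by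
      rw [Complex.norm_real, Real.norm_of_nonneg (Finset.sum_nonneg fun _ _ => by positivity)]
    rw [h5, h4]
    refine (norm_sum_le _ _).trans (Finset.sum_le_sum fun z _ => ?_)
    rw [norm_mul, norm_mul, RCLike.norm_conj]
    have h6 : ‖β z.1‖ * ‖β z.2‖ ≤ 1 := mul_le_one₀ (hβ z.1) (norm_nonneg _) (hβ z.2)
    calc ‖β z.1‖ * ‖β z.2‖ * ‖Gc χ N z.1 z.2‖ ≤ 1 * ‖Gc χ N z.1 z.2‖ :=
          mul_le_mul_of_nonneg_right h6 (norm_nonneg _)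
      _ = ‖Gc χ N z.1 z.2‖ := one_mul _
  calc (∑ n ∈ A, ‖∑ b ∈ B, β b * χ ((n : ZMod p) + b)‖) ^ 2 ≤
      (A.card : ℝ) * ∑ n ∈ A, ‖∑ b ∈ B, β b * χ ((n : ZMod p) + b)‖ ^ 2 := h1
    _ ≤ (A.card : ℝ) * ∑ z ∈ B ×ˢ B, ‖Gc χ N z.1 z.2‖ :=
      mul_le_mul_of_nonneg_left (h2.trans h3) (Nat.cast_nonneg _)

end Pool.Agent.PJ
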